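import Pool.Agent.Lib.SqIns.FinalB

/-!
MP_eaf1c8_co: for every `n ≡ 1 (mod 4)` with `n ≠ 9` the edge set of the complete graph `K_n`
decomposes into squares of Hamilton cycles.
-/

namespace Pool.Agent.Results.MP_eaf1c8_co.Full

/-- The square of the cycle `0, 1, …, n-1`: the graph on `ZMod n` in which `i` and `j` are
adjacent exactly when `i ≠ j` and `i - j` is `1`, `-1`, `2` or `-2`. -/
def cycleSquare (n : ℕ) : SimpleGraph (ZMod n) :=
  SimpleGraph.fromRel (fun i j => j - i = 1 ∨ j - i = 2)

/-- `K_n` decomposes into squares of Hamilton cycles: there are `(n-1)/4` graphs on the vertex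
set `Fin n`, each of them isomorphic to the square of the `n`-cycle, such that any two different
vertices are adjacent in exactly one of them. -/
def DecomposesIntoSquares (n : ℕ) : Prop :=
  ∃ B : Fin ((n - 1) / 4) → SimpleGraph (Fin n),
    (∀ b, Nonempty (B b ≃g cycleSquare n)) ∧
    ∀ u v : Fin n, u ≠ v → ∃! b, (B b).Adj u v

/-- For every `n ≡ 1 (mod 4)` with `n ≠ 9` the complete graph `K_n` decomposes into squares of
Hamilton cycles. -/
theorem result : ∀ n : ℕ, n % 4 = 1 → n ≠ 9 → DecomposesIntoSquares n :=
  SqIns.full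

end Pool.Agent.Results.MP_eaf1c8_co.Full
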